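import Pool.Agent.KS6_56.UA.Prism

/-!
# Polytopes without a threshold for unique addresses in every dimension `d ≥ 2`

Definitions: `IsVertices p` says that the points `p i` are distinct and are exactly the vertices
(extreme points) of their convex hull, `IsAttractor p lam S` that `S` is a nonempty compact set with
`S = ⋃ i, (lam S + (1 - lam) p i)`, `IsAddress p lam e x` that `x = (1 - lam) ∑ lam ^ n p (e n)`,
`FullDim p` that every point of the space is an
affine combination of the `p i` (the polytope has nonempty interior), and `IsThreshold p ls` that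
`ls` has both properties asked for.

The polytopes are the products of a quadrilateral with cubes, so they have `2 ^ d` vertices. An
address in a prism is a pair of an address in the base and an expansion in base `1 / lam` of the
last coordinate; below the golden ratio (`1 < lam + lam ^ 2`) only the constant expansions are
unique.
-/

set_option autoImplicit false

namespace Pool.Agent.Results.MP_43eaec_an.EveryDimension

open H429P Pool.Agent.KS6_56.UA

/-- In every dimension `d ≥ 2` there are `2 ^ d` points of `ℝ ^ d` which are exactly the vertices of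
a convex polytope with nonempty interior, such that at the ratio `19/30` no point of the attractor
except the vertices has exactly one address, while at the larger ratio `7/11` some point of the
attractor which is not a vertex has exactly one address; hence no threshold exists. -/
theorem result (d : ℕ) (hd : 2 ≤ d) :
    ∃ p : Fin (2 ^ d) → EuclideanSpace ℝ (Fin d), IsVertices p ∧
      FullDim p ∧
      (∀ lam, 0 < lam → lam < 1 → ∃! S, IsAttractor p lam S) ∧
      (∀ S, IsAttractor p (19 / 30) S → ∀ x ∈ S, x ∉ Set.range p →
        ¬ ∃! e, IsAddress p (19 / 30) e x) ∧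
      (∀ S, IsAttractor p (7 / 11) S → ∃ x ∈ S, x ∉ Set.range p ∧
        ∃! e, IsAddress p (7 / 11) e x) ∧
      ¬ ∃ ls, 0 < ls ∧ ls < 1 ∧ IsThreshold p ls := by
  obtain ⟨m, rfl⟩ : ∃ m, d = m + 2 := ⟨d - 2, by omega⟩
  obtain ⟨p, hp, hspan, hlow, x, hx, hhigh⟩ := exists_config m
  have hk : 0 < 2 ^ (m + 2) := by positivity
  have hin : x ∈ Set.range (pnt p (7 / 11)) := by
    obtain ⟨e, he, _⟩ := hhigh
    exact ⟨e, (isAddress_iff (by norm_num) (by norm_num)).mp he⟩
  refine ⟨p, hp, hspan, fun lam h0 h1 => existsUnique_attractor hk h0 h1,
    fun S _ x _ hx hu => hx (hlow x hu), ?_, ?_⟩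
  · intro S hS
    rw [attractor_eq (by norm_num) (by norm_num) hS]
    exact ⟨x, hin, hx, hhigh⟩
  rintro ⟨ls, _, _, hup, hlo⟩
  rcases lt_or_ge (19 / 30 : ℝ) ls with h | h
  · have hA := isAttractor_range (p := p) (lam := 19 / 30) hk (by norm_num) (by norm_num)
    obtain ⟨x, _, hx2, hx3⟩ := hlo (19 / 30) (by norm_num) h _ hA
    exact hx2 (hlow x hx3)
  · have hA := isAttractor_range (p := p) (lam := 7 / 11) hk (by norm_num) (by norm_num)
    obtain ⟨e, he, hu⟩ := hhigh
    refine hup (7 / 11) (by linarith) (by norm_num) _ hA x hin hx ?_
    refine (Set.countable_singleton e).mono ?_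
    intro e' he'
    exact hu e' he'

end Pool.Agent.Results.MP_43eaec_an.EveryDimension
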